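import Pool.Agent.K4H25.MG.Tor

/-!
# Abundance for images of hypersurfaces fibred by curves over products of projective spaces

Let `V` be a component of the hypersurface `f = 0` in the torus with the coordinates
`t 1, ..., t n, x, y`, where the Laurent polynomial `f` is nondegenerate in the sense of Khovanskii.
Suppose that `x` and `y` appear in `f` only with exponents `(i, j)` in the trapezoid `T` given by
`0 ≤ j ≤ b`, `0 ≤ i ≤ a + s (b - j)`; the Newton polytope of `f` is arbitrary otherwise. Suppose that
`t 1, ..., t n, x` are algebraically independent on `V`, and that the generic fibres of the map given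
by `t` are irreducible; they are curves of any genus. Let the variables `t` be divided into blocks
with `n 1, ..., n q` variables, so that `V` is fibred over `V' = ℙ ^ (n 1) × ... × ℙ ^ (n q)`. Suppose
that for all lattice points `(i, j)` in the interior of `T` there is a vector `u i j` over `(i, j)`
such that the `u i j + c` are in the Fine interior of the Newton polytope of `f` for all `c ≥ 0` in
the directions of `t` whose sum over the block `p` is at most `M p`. For example `V` may be a general
hypersurface of multidegree `(e 1, ..., e q, a, b)` in
`ℙ ^ (n 1) × ... × ℙ ^ (n q) × ℙ ^ 1 × ℙ ^ 1`, with `M p = e p - n p - 1`.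

Let `V ⇢ W` be a dominant rational map of finite degree. The map is arbitrary; it is not assumed to
be related to the fibration. Let `W'` be the image of `V` in `W × V'` and, for a nonempty set `Λ` of
blocks, let `W' Λ` be its image in the product of `W` and the `ℙ ^ (n p)`, `p ∉ Λ`, and `m Λ` the
degree of `W' → W' Λ`. In particular `m Λ ≤ m`, where `m` is the degree of `W' → W`. Suppose that
`m Λ ≤ 1 + ∑_{p ∈ Λ} M p` for all `Λ ≠ ∅`.

* Then `p_g(W) = 0` if and only if `κ(W) = -∞`, if and only if `K_W` is not pseudo-effective, if and
  only if `W` is uniruled.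
* Let `r ≤ n` be such that `2 m Λ ≤ 1 + ∑_{p ∈ Λ} M p` for all `Λ ≠ ∅` with `∑_{p ∉ Λ} n p < r`.
  Then `W` is uniruled or `κ(W) ≥ r`.

For example, let all blocks have one variable and let `m ≤ 1 + M p` for all `p`, `M p ≥ 1`. Then the
assumption holds, and the condition of the second part holds for `r = n - 2`: for at least three
blocks, `2 m ≤ 2 + 2 min M ≤ 1 + 3 min M`. So `W` is uniruled or `κ(W) ≥ dim W - 3`, in the whole
range in which the nonvanishing is known. A projective manifold `X` with nef canonical divisor is not
uniruled, and if `κ(X) ≥ dim X - 3` then `K_X` is semiample (Lai, Kawamata, and abundance in dimension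
at most three). So `K_X` is semiample for all projective manifolds `X` with nef canonical divisor
which are birational to such an image `W`. In `CurveFibrations` this was shown for `2 m ≤ 1 + M`, with
one block.

Proof. Let `h` be the trace on `W'` of one of the canonical forms `x ^ (u i j) Res` on `V`. If the
traces of all these forms vanish then `W` is uniruled. Otherwise consider the canonical forms
`T A = Tr (A(t) h)` on `W`, where the degree of the polynomial `A` in the variables of the block `p`
is at most `M p`. Suppose that their ratios generate a field `E` of transcendence degree `e < r`. Let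
`w` and `w'` be independent generic points of a fibre of the map of `W` given by these ratios, and
`v_1, ..., v_m` and `v'_1, ..., v'_m` the points of `V'` over them. The ratios have the same value in
`w` and `w'`. So there is a linear relation, with nonzero coefficients, between the values of the `A`
in the `2 m` points. If `v_1` and `v'_i` agree in the blocks `p ∉ Λ` then their coordinates there are
algebraic over `E`, because `w` and `w'` are independent over `E`; so `∑_{p ∉ Λ} n p ≤ e < r`. The
number of the `i` such that `v_i` and `v_1` agree in the blocks `p ∉ Λ` is `m Λ`, and the number of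
the `v'_i` is `0` or `m Λ`. By the marriage theorem one can assign to all points except `v_1` a block
in which they differ from `v_1`, such that the block `p` is used at most `M p` times. So there is a
product `A` of linear polynomials which vanishes in all points except `v_1`, a contradiction. The
nonvanishing of one of the `T A` is shown in the same way, with the `m` points `v_i`.
-/

set_option autoImplicit false
set_option linter.overlappingInstances false
set_option maxHeartbeats 4000000
set_option synthInstance.maxHeartbeats 400000

open FF Module Pool.Agent Pool.Agent.W602.GT Pool.Agent.R885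
open Pool.Agent.W619.PQ (IsUniruled)

namespace Pool.Agent.Results.MP_97d78d_ag.MultiprojectiveFibrations

/-- The Laurent polynomial `f` is nondegenerate: the initial parts `ini v f` have a nonzero
logarithmic gradient at all their zeros in the torus. -/
def Nondegenerate {r : ℕ} (f : (Fin r → ℤ) →₀ ℂ) : Prop :=
  ∀ v : Fin r → ℤ, ∀ c : Fin r → ℂ, (∀ i, c i ≠ 0) → ev c (ini v f) = 0 →
    ∃ i, gr c (ini v f) i ≠ 0

/-- The integral vector `u` is in the Fine interior of the Newton polytope of `f`. -/
def InFine {r : ℕ} (f : (Fin r → ℤ) →₀ ℂ) (u : Fin r → ℤ) : Prop :=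
  ∀ v : Fin r → ℤ, v ≠ 0 → 1 + mn v f ≤ u ⬝ᵥ v

/-- The exponents `(i, j)` of the last two variables in `f` are in the trapezoid `0 ≤ j ≤ b`,
`0 ≤ i ≤ a + s (b - j)`. -/
def InTrapezoid {n : ℕ} (f : (Fin (n + 2) → ℤ) →₀ ℂ) (a s b : ℕ) : Prop :=
  ∀ m ∈ f.support, 0 ≤ m (Fin.last n).castSucc ∧
    m (Fin.last n).castSucc ≤ a + s * (b - m (Fin.last (n + 1))) ∧
    0 ≤ m (Fin.last (n + 1)) ∧ m (Fin.last (n + 1)) ≤ b

/-- The lattice point `(i, j)` is in the interior of the trapezoid. -/
def Interior (a s b i j : ℕ) : Prop := 1 ≤ i ∧ 1 ≤ j ∧ j + 1 ≤ b ∧ i + 1 ≤ a + s * (b - j)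

/-- The geometric genus of the variety with the function field `L` is zero: the only canonical form
which is regular at all prime divisors is `0`. -/
def GenusZero (L : Type) [Field L] [Algebra ℂ L] (n : ℕ) : Prop :=
  ∀ ω : (Fin n → Derivation ℂ L L) → L, IsPluri 1 ω →
    (∀ P : Place ℂ L, Divisorial n P → RegAt P ω) → ∀ D, ω D = 0

/-- The degree `m Λ` of `W' → W' Λ`: the degree of the field `L(t)` over its subfield which is
generated over `L` by the variables `t l` outside of the blocks in `Λ`; the variable `t l` is in the
block `β l`. -/
noncomputable def blockDegree {K : Type} [Field K] {n q : ℕ} (L : Type) [Field L] [Algebra L K]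
    (β : Fin n → Fin q) (t : Fin n → K) (Λ : Finset (Fin q)) : ℕ :=
  (IntermediateField.adjoin L (t '' {l | β l ∉ Λ})).relfinrank
    (IntermediateField.adjoin L (Set.range t))

/-- **Images of fibrations by curves over products of projective spaces.** Let `V` be a component of
the zero set of a nondegenerate Laurent polynomial `f` in the variables `t l`, `x`, `y`, with
function field `K` and generic point `z`, and let the exponents of `x`, `y` be in a trapezoid. Suppose
that the `t l` and `x` are algebraically independent on `V`, and that the generic fibres of the map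
given by the `t l` are irreducible. Let the variable `t l` be in the block `β l`, and suppose that for
all lattice points `(i, j)` in the interior of the trapezoid there is a vector `u i j` over it such
that `u i j + c` is in the Fine interior for all `c ≥ 0` in the directions of the `t l` whose sum over
each block `p` is at most `M p`. Let `V ⇢ W` be a dominant rational map of finite degree, `L` the
function field of `W`, and `m Λ ≤ 1 + ∑_{p ∈ Λ} M p` for all nonempty `Λ`.
Then `p_g(W) = 0` if and only if `κ(W) = -∞`, if and only if `K_W` is not pseudo-effective, if and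
only if `W` is uniruled. If `r ≤ n` and `2 m Λ ≤ 1 + ∑_{p ∈ Λ} M p` for all nonempty `Λ` such that
there are less than `r` variables `t l` outside of the blocks in `Λ`, then `W` is uniruled or
`κ(W) ≥ r`. -/
theorem result {n q a s b : ℕ} {β : Fin n → Fin q} {M : Fin q → ℕ}
    {f : (Fin (n + 2) → ℤ) →₀ ℂ} (hf : Nondegenerate f) (hT : InTrapezoid f a s b)
    {K : Type} [Field K] [Algebra ℂ K]
    {z : Fin (n + 2) → K} (hz : ∀ i, z i ≠ 0) (hfz : ev z f = 0)
    (hgen : IntermediateField.adjoin ℂ (Set.range z) = ⊤) (hK : Algebra.trdeg ℂ K = (n + 1 : ℕ))
    (hind : AlgebraicIndependent ℂ fun i : Fin (n + 1) => z i.castSucc)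
    {t : Fin n → K} (ht : ∀ l, t l = z l.castSucc.castSucc)
    (hcl : ∀ g : K, IsAlgebraic (IntermediateField.adjoin ℂ (Set.range t)) g →
      g ∈ IntermediateField.adjoin ℂ (Set.range t))
    {u : ℕ → ℕ → Fin (n + 2) → ℤ}
    (hu : ∀ i j, Interior a s b i j → u i j (Fin.last n).castSucc = i ∧
      u i j (Fin.last (n + 1)) = j ∧
      ∀ c : Fin n → ℕ, (∀ p, ∑ l with β l = p, c l ≤ M p) →
        InFine f (u i j + ∑ l, (c l : ℤ) • Pi.single l.castSucc.castSucc 1))
    (L : Type) [Field L] [Algebra ℂ L] [Algebra L K] [IsScalarTower ℂ L K]
    [FiniteDimensional L K]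
    (hdeg : ∀ Λ : Finset (Fin q), Λ.Nonempty → blockDegree L β t Λ ≤ 1 + ∑ p ∈ Λ, M p) :
    [GenusZero L (n + 1), ¬ KodGe ℂ L (n + 1) (fun _ => False) 0,
      ¬ Psef ℂ L (n + 1) (fun _ => False), IsUniruled ℂ L (n + 1)].TFAE ∧
    ∀ r : ℕ, r ≤ n →
      (∀ Λ : Finset (Fin q), Λ.Nonempty → (Finset.univ.filter fun l => β l ∉ Λ).card < r →
        2 * blockDegree L β t Λ ≤ 1 + ∑ p ∈ Λ, M p) →
      IsUniruled ℂ L (n + 1) ∨ KodGe ℂ L (n + 1) (fun _ => False) r := by
  obtain ⟨h1, h2⟩ := Pool.Agent.K4H25.MG.main_tor (β := β) (M := M) hf hT hz hfz hgen hK hind ht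
    hcl hu L (fun Λ hΛ => (hdeg Λ hΛ).trans_eq (add_comm _ _))
  exact ⟨h1, fun r hr hk => h2 r hr fun Λ hΛ hlt => (hk Λ hΛ hlt).trans_eq (add_comm _ _)⟩

end Pool.Agent.Results.MP_97d78d_ag.MultiprojectiveFibrations
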