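import Pool.Agent.K4H25.MG.D
/-!
# Abundance for product-quotient varieties

Let `C 0, ..., C (n - 1)` be smooth projective curves over the complex numbers, of arbitrary genera,
let `V = C 0 × ... × C (n - 1)`, and let `G` be a finite group of automorphisms of `V` which permutes
the factors (that is, `g` is a permutation of the coordinates composed with isomorphisms between the
curves; if all genera are at least two, this is true for every finite group of automorphisms of `V`).
Nothing is assumed about the fixed points of the elements of `G`.

An element `g ≠ 1` of `G`, of order `N`, is called junior if at some fixed point it acts on the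
cotangent space of `V` with the eigenvalues `ζ ^ a 0, ..., ζ ^ a (n - 1)`, where `ζ` is a primitive
`N`-th root of unity, `a i ≥ 0` and `∑ i, a i < N`. These elements are responsible for the
singularities of `V / G` which are not canonical (Reid, Tai). Let `J` be a subgroup of `G` which
preserves the factors and contains all junior elements of `G`; so we assume that the junior elements
preserve the factors (`Junior`, `JuniorSwap`; an element which permutes the factors is never junior
except if it swaps two of them and preserves the others).

**Theorem.** *Let `J` be abelian. Then `κ(X) = ν(X)` for all projective varieties `X` with canonical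
singularities which are birational to `V / G`:* either both are equal to some `d ≥ 0`, or both are
`-∞` and `K_X` is not pseudo-effective. So the canonical divisor of `X` is semiample if it is nef, by
the theorem of Kawamata on nef canonical divisors with `κ = ν` (this last step is not part of the
Lean statement).

It is sufficient that those subgroups `H` of `J` are abelian which are generated by junior elements and
such that, for all `i`, the curve `C i / H` is rational or `H` is trivial on `C i` (`Small`). For
instance: any two junior elements commute which are trivial on all curves `C i` such that `C i / G`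
is not rational. For nonabelian `J` with many branch points there is the weighted criterion of Reid
and Tai (`WeightedCriterion`) for some of the curves, the last `q` ones, say: there are weights
`0 ≤ δ ≤ 1` at the points of the curves `C i / J`, with `deg (K + δ) > 0`, such that the pull-backs of
the logarithmic forms with these weights have a sufficient order at the fixed points of the elements
of `J`; then only those `H` have to be considered which are trivial on the last `q` curves.

Examples. (a) `G` is abelian and preserves the factors: `V / G` is birational to a finite abelian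
cover of a product of curves `B 0 × ... × B (n - 1)` which is branched along fibres of the
projections to the `B i`. All values of `κ(X)` from `-∞` to `n` occur, also if `V` is of general
type. (b) `G` is an arbitrary finite group the junior elements of which commute (and preserve the
factors), for instance the semidirect product of a group as in (a) with a group of even permutations
of equal factors. (c) Let `J` be nonabelian. If every element of `J` with fixed points is nontrivial on
at least `m` of the curves, one can take `δ = min (1 - 1 / r) (1 - 1 / m)` at the points with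
ramification index `r`: the condition is `deg K + ∑ min (1 - 1 / r) (1 - 1 / m) > 0` for all `C i / J`.

Proof. (1) Let `G` be abelian and let all `C i / G` be rational. By Kummer theory `V / G` is birational
to a subvariety of a torus which is given by a nondegenerate system of Laurent polynomials with three
terms, so that the theorem on nondegenerate complete intersections applies.

(2) The forms on (a smooth model of) `V / J` are forms on `V`, so by the Künneth formula sums of
products of forms on the curves. So they have at least the order `m (e - 1)` at all divisors over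
`V` with the ramification index `e` over `V / G` whose inertia group is not generated by a junior
element, and also at the other ones, because these inertia groups are contained in `J`. So the
symmetric functions of these forms are forms on `V / G`, and `κ(V / G) = κ(V / J)`; the same is true
for `ν` since it is at most `ν(V / J)`.

(3) Let the weighted criterion be true for the last `q` curves (for instance let `q = 1`, and
`C i / J` not rational). Let `F` be the quotient of the product of the other curves by the group of
the elements of `J` which are trivial on the last `q` curves. If `κ(F) = ν(F) = -∞` then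
`κ = ν = -∞` for `V / J`. Otherwise let `η` be a pluricanonical form on `F` and `β i` logarithmic
pluricanonical forms on the curves `C i / J` with the weights `δ i`. Then `η ∧ β 1 ∧ ... ∧ β q`
has order at least `m (e - 1)` along all divisors with ramification index `e`, and the symmetric
functions of these forms give `κ(V / J) ≥ κ(F) + q` (with the elliptic curves not counted); the upper
bound for `ν` follows from the one for the cover by the product of `F` and of quotients of the
`C i`. Now (2) and (3) are applied alternately until (1) applies.
-/

set_option autoImplicit false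
set_option linter.overlappingInstances false
set_option maxHeartbeats 4000000
set_option synthInstance.maxHeartbeats 400000

open FF IntermediateField Pool.Agent Pool.Agent.Y172 Pool.Agent.Y191

namespace Pool.Agent.Results.MP_97d78d_ag.ProductQuotients

open Pool.Agent.W603.LV (canDeg Ge)
open Pool.Agent.W619.PL (LiesOver)

section

variable {M : Type} [Field M] [Algebra ℂ M]

/-- The automorphism `g` fixes the point (the place) `w` of the curve with the function field `C` and
acts on the cotangent line as `θ`: `g t = θ t + (higher order)` for the local parameters `t`. -/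
def Rotates (C : IntermediateField ℂ M) (g : M ≃ₐ[ℂ] M) (w : Place ℂ C) (θ : ℂ) : Prop :=
  ∀ t z : C, w.ord t = 1 → g t = z → Ge w 2 (z - algebraMap ℂ C θ * t)

/-- The automorphism `g ≠ 1`, which preserves the curves `C i`, is junior: for a primitive root of
unity `ζ` of order `N = orderOf g` it acts at some points of the curves as the rotations by `ζ ^ a i`
with `a i ≥ 0` and `∑ i, a i < N`. -/
def Junior {n : ℕ} (C : Fin n → IntermediateField ℂ M) (g : M ≃ₐ[ℂ] M) : Prop :=
  g ≠ 1 ∧ ∃ (ζ : ℂ) (w : ∀ i, Place ℂ (C i)) (a : Fin n → ℕ), IsPrimitiveRoot ζ (orderOf g) ∧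
    (∀ i, Rotates (C i) g (w i) (ζ ^ a i)) ∧ ∑ i, a i < orderOf g

/-- The automorphism `g` swaps the curves `i` and `j`, preserves the others, and is junior. Let `N` be
the order of `g` and `ζ` a primitive `N`-th root of unity. At the fixed point `g` acts on the curves
`l ≠ i, j` as the rotations by `ζ ^ a l` and `g ^ 2` acts on the curve `i` as the rotation by
`ζ ^ (2 a i)`. So `g` has the eigenvalues `ζ ^ a i` and `- ζ ^ a i = ζ ^ (a i + N / 2)` on the
cotangent space of `C i × C j`, and junior means that `∑_{l ≠ i, j} a l + 2 a i + N / 2 < N`. -/
def JuniorSwap {n : ℕ} (C : Fin n → IntermediateField ℂ M) (g : M ≃ₐ[ℂ] M) : Prop :=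
  ∃ i j, i ≠ j ∧ (∀ z ∈ C i, g z ∈ C j) ∧ (∀ z ∈ C j, g z ∈ C i) ∧
    (∀ l, l ≠ i → l ≠ j → ∀ z ∈ C l, g z ∈ C l) ∧
    ∃ (ζ : ℂ) (w : ∀ l, Place ℂ (C l)) (a : Fin n → ℕ), IsPrimitiveRoot ζ (orderOf g) ∧
      (∀ l, l ≠ i → l ≠ j → Rotates (C l) g (w l) (ζ ^ a l)) ∧
      Rotates (C i) (g ^ 2) (w i) (ζ ^ (2 * a i)) ∧
      2 * ∑ l ∈ (Finset.univ.erase i).erase j, a l + 4 * a i < orderOf g

/-- The subgroup `H` is generated by junior elements, and for every `i` it is trivial on the curve
`C i` or the curve `C i / H` is rational (its function field, the field of the `H`-invariant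
functions on `C i`, is generated by one element). -/
structure Small {n : ℕ} (C : Fin n → IntermediateField ℂ M) (H : Subgroup (M ≃ₐ[ℂ] M)) :
    Prop where
  junior : Subgroup.closure {g | g ∈ H ∧ Junior C g} = H
  rational : ∀ i, (∀ g ∈ H, ∀ z ∈ C i, g z = z) ∨ ∃ t : M, ℂ⟮t⟯ = C i ⊓ fixedField H

variable {q : ℕ}

/-- The function field of the quotient `C' i` of the curve `C i` by the group of the elements of `J`
which are trivial on all other factors, those with the function fields `Z` and `C j`, `j ≠ i`. -/
noncomputable def reduced (J : Subgroup (M ≃ₐ[ℂ] M)) (Z : IntermediateField ℂ M)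
    (C : Fin q → IntermediateField ℂ M) (i : Fin q) : IntermediateField ℂ M :=
  C i ⊓ fixedField (J ⊓ (Z ⊔ ⨆ j : {j // j ≠ i}, C j).fixingSubgroup)

theorem reduced_ge (J : Subgroup (M ≃ₐ[ℂ] M)) (Z : IntermediateField ℂ M)
    (C : Fin q → IntermediateField ℂ M) (i : Fin q) : C i ⊓ fixedField J ≤ reduced J Z C i :=
  Pool.Agent.K4H25.GW.red_ge J Z C i

/-- **The weighted criterion** for a group `J` which acts on the product of a variety with the
function field `Z` and of the curves `C i`: there are weights `δ i p ≥ 0` at the points `p` of the
curves `C i / J` (almost all of them zero) such that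
* `r (1 - δ i p) ≥ 1` for the ramification indices `r` at the points over `p` of the curve
  `C' i` (`reduced`), the quotient of `C i` by the elements of `J` which are trivial on all the other
  factors;
* if `g ∈ J` has the order `e > 1` on the product of the `C' i` and acts at the points `w i` of the
  `C' i`, over `p i` with the ramification index `r i`, as the rotation by `ζ ^ a i`,
  `0 ≤ a i < e`, `ζ` a primitive `e`-th root of unity, then `∑ i, r i (1 - δ i (p i)) a i ≥ e`;
  it suffices that this sum is at least `e - 1` if `g` is not trivial on `Z`;
* the degree of `K + ∑ p, δ i p · p` on `C i / J` is positive, or it is zero and `C' i` is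
  elliptic (`canDeg` is the degree of the canonical divisor of a curve). -/
structure WeightedCriterion (J : Subgroup (M ≃ₐ[ℂ] M)) (Z : IntermediateField ℂ M)
    (C : Fin q → IntermediateField ℂ M) (δ : ∀ i, Place ℂ ↥(C i ⊓ fixedField J) → ℚ) : Prop where
  nonneg : ∀ i p, 0 ≤ δ i p
  branch : ∀ i (w : Place ℂ (reduced J Z C i)) (p : Place ℂ ↥(C i ⊓ fixedField J)) (r : ℕ),
    LiesOver (reduced_ge J Z C i) w p r → 1 ≤ r * (1 - δ i p)
  age : ∀ g ∈ J, ∀ e : ℕ, 1 < e →
    (∀ m : ℕ, (∀ i, ∀ z ∈ reduced J Z C i, (g ^ m) z = z) ↔ e ∣ m) →
    ∀ ζ : ℂ, IsPrimitiveRoot ζ e →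
    ∀ (w : ∀ i, Place ℂ (reduced J Z C i)) (p : ∀ i, Place ℂ ↥(C i ⊓ fixedField J))
      (r a : Fin q → ℕ), (∀ i, LiesOver (reduced_ge J Z C i) (w i) (p i) (r i)) →
      (∀ i, a i < e) → (∀ i, Rotates (reduced J Z C i) g (w i) (ζ ^ a i)) →
      (e : ℚ) ≤ ∑ i, r i * (1 - δ i (p i)) * a i ∨
        ((∃ z ∈ Z, g z ≠ z) ∧ (e : ℚ) ≤ ∑ i, r i * (1 - δ i (p i)) * a i + 1)
  degree : ∀ i, ∃ T : Finset (Place ℂ ↥(C i ⊓ fixedField J)), (∀ q, q ∉ T → δ i q = 0) ∧
    ((0 : ℚ) < canDeg ℂ ↥(C i ⊓ fixedField J) + ∑ q ∈ T, δ i q ∨
      ((0 : ℚ) ≤ canDeg ℂ ↥(C i ⊓ fixedField J) + ∑ q ∈ T, δ i q ∧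
        canDeg ℂ (reduced J Z C i) = 0))

/-- There is no condition if there are no curves `C i` (`q = 0`). -/
theorem weightedCriterion_zero (J : Subgroup (M ≃ₐ[ℂ] M)) (Z : IntermediateField ℂ M)
    (C : Fin 0 → IntermediateField ℂ M)
    (δ : ∀ i, Place ℂ ↥(C i ⊓ fixedField J) → ℚ) : WeightedCriterion J Z C δ where
  nonneg i := i.elim0
  branch i := i.elim0
  age g _ e he h := by
    have h1 := (h 1).1 fun i => i.elim0
    rw [Nat.dvd_one] at h1
    omega
  degree i := i.elim0

end

/-- **Abundance for product-quotient varieties.** Let `M` be the function field of the product `V` of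
`n = d + q` curves, where the curve `i` has the function field `C i`: the field `M` is generated by
the `C i` and has transcendence degree `n`. Let `G` be a finite group of automorphisms of `M` over `ℂ`
which permutes the fields `C i`, and let `J` be a subgroup which preserves them and contains all
junior elements of `G` (those which preserve the `C i`; the other elements of `G` are not junior).
Suppose that the subgroups `H` of `J` are abelian which are generated by junior elements, have
rational quotients `C i / H` for all `i` such that `H` is not trivial on `C i`, and are trivial on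
the last `q` curves; for these curves the weighted criterion is satisfied (no condition if `q = 0`).

Let `X` be a normal projective variety, of dimension `n`, with canonical singularities, with generic
point `y` and function field `K` isomorphic to the field of invariants, the function field of
`V / G`. Then `κ(X) = ν(X)`: either both are equal to some `d ≥ 0`, or both are `-∞` and `K_X` is
not pseudo-effective (`m K_X + A` has no nonzero sections for large `m`, for all divisors `A`). -/
theorem result {d q : ℕ} {M : Type} [Field M] [Algebra ℂ M]
    {C : Fin (d + q) → IntermediateField ℂ M}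
    (hfg : ∀ i, Algebra.EssFiniteType ℂ (C i)) (hone : ∀ i, Algebra.trdeg ℂ (C i) = 1)
    (hgen : ⨆ i, C i = ⊤) (hM : Algebra.trdeg ℂ M = (d + q : ℕ))
    {G : Subgroup (M ≃ₐ[ℂ] M)} [Finite G]
    (hG : ∀ g ∈ G, ∀ i, ∃ j, (C i).map (g : M →ₐ[ℂ] M) = C j)
    {J : Subgroup (M ≃ₐ[ℂ] M)} (hJG : J ≤ G) (hJ : ∀ g ∈ J, ∀ i, ∀ z ∈ C i, g z ∈ C i)
    (hjunior : ∀ g ∈ G, (∀ i, ∀ z ∈ C i, g z ∈ C i) → Junior C g → g ∈ J)
    (hswap : ∀ g ∈ G, ¬ JuniorSwap C g)
    (hsmall : ∀ H ≤ J, (∀ g ∈ H, ∀ i : Fin q, ∀ z ∈ C (Fin.natAdd d i), g z = z) → Small C H →
      ∀ g ∈ H, ∀ h ∈ H, g * h = h * g)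
    (δ : ∀ i : Fin q, Place ℂ ↥(C (Fin.natAdd d i) ⊓ fixedField J) → ℚ)
    (hcrit : WeightedCriterion J (⨆ j : Fin d, C (Fin.castAdd q j))
      (fun i : Fin q => C (Fin.natAdd d i)) δ)
    {K : Type} [Field K] [Algebra ℂ K] (φ : K ≃ₐ[ℂ] fixedField G)
    {N : ℕ} {y : Fin (N + 1) → K} (hy : NormalModel y) (hcan : Canonical y (d + q)) :
    (∃ k : ℕ, k ≤ d + q ∧ kodairaDim y (d + q) 0 = (k : WithBot ℕ) ∧
      ∀ A, Effective y A → Integral y A → numericalDim y (d + q) 0 A = (k : EReal)) ∨
    (kodairaDim y (d + q) 0 = ⊥ ∧ ∀ A, Effective y A →
      (∃ m₀ : ℕ, ∀ m : ℕ, m₀ ≤ m → h0 y (d + q) m A = 0) ∧ numericalDim y (d + q) 0 A = ⊥) := by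
  have hFF : ∀ i, IsFF ℂ (C i) := fun i => ⟨hfg i, hone i⟩
  have h1 := Pool.Agent.K4H25.GW.main_full' hM C hFF hgen G hG J hJG hJ hjunior hswap
    (fun H hH hq hs => hsmall H hH hq ⟨hs.junior, hs.rational⟩) δ
    ⟨hcrit.nonneg, hcrit.branch, hcrit.age, hcrit.degree⟩
  have hfin : FiniteDimensional (fixedField G) M := Pool.Agent.W619.PQ.fixed_finite G
  have hessM : Algebra.EssFiniteType ℂ M := by
    have h2 : Algebra.EssFiniteType ℂ ↥(⨆ i, C i) :=
      essFiniteType_iff.2 (fg_iSup fun j => essFiniteType_iff.1 (hfg j))
    rw [hgen] at h2
    exact (Algebra.EssFiniteType.iff_of_algEquiv (topEquiv (F := ℂ) (E := M))).1 h2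
  have hessG : Algebra.EssFiniteType ℂ (fixedField G) :=
    Pool.Agent.TH466.QG.ess_below (K := M)
  have hessK : Algebra.EssFiniteType ℂ K := (Algebra.EssFiniteType.iff_of_algEquiv φ).2 hessG
  have halgG := Pool.Agent.W721.PG.EFF2.alg_fixed G
  obtain ⟨htG, -⟩ := Pool.Agent.W721.PG.EFF2.exists_basis (fixedField G) (d + q) hM
  have htK : Algebra.trdeg ℂ K = (d + q : ℕ) := by rw [φ.trdeg_eq, htG]
  have h2 := Pool.Agent.K4H25.GQ.good_iso φ hessK htK h1
  have h3 := Pool.Agent.R885.N.can_all htK h2 hy hcan
  rcases h3 with h3 | ⟨h3, h4⟩
  · exact Or.inl h3
  · refine Or.inr ⟨h3, fun A hA => ?_⟩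
    have h5 := h4 A hA
    simp only [smul_zero, zero_add] at h5
    exact h5

end Pool.Agent.Results.MP_97d78d_ag.ProductQuotients
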