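import Pool.Agent.K4H25.PC.Full

/-!
# Abundance for images of products of curves

Let `C 0, C 1, ..., C n` be projective curves over the complex numbers, where `C 0` is arbitrary and
the gonality of `C p` is at least `M p + 2` for `p ≥ 1`: all nonconstant rational functions on `C p`
have degree at least `M p + 2`. Let `V = C 0 × ... × C n`, and let `V ⇢ W` be a dominant rational map
of finite degree. The map is arbitrary; it is not assumed to be related to the product structure, or
to be Galois. Let `V' = C 1 × ... × C n`, let `W'` be the image of `V` in `W × V'` and, for a nonempty
set `Λ` of indices `p ≥ 1`, let `W' Λ` be its image in the product of `W` and the `C p`, `p ∉ Λ`, and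
`m Λ` the degree of `W' → W' Λ`. In particular `m Λ ≤ m`, where `m` is the degree of `V ⇢ W`. Suppose
that `m Λ ≤ 1 + ∑_{p ∈ Λ} M p` for all `Λ ≠ ∅`.

* Then `p_g(W) = 0` if and only if `κ(W) = -∞`, if and only if `K_W` is not pseudo-effective, if and
  only if `W` is uniruled.
* Let `r ≤ n` be such that `2 m Λ ≤ 1 + ∑_{p ∈ Λ} M p` for all `Λ` with more than `n - r` elements.
  Then `W` is uniruled or `κ(W) ≥ r`.

For example, suppose that the gonality of `C 1, ..., C n` is at least `3`, and that any two points of
`C 1 × ... × C n` over a general point of `W` differ in at least `m - 1` coordinates. Then the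
assumption holds with `M p = 1`, since `m Λ = 1` if `Λ` has less than `m - 1` elements. If they differ
in at least `2 m - 1` coordinates then `W` is uniruled or `κ(W) ≥ dim W - 1`. The degree can be much
larger than the gonalities here, and `W` may have no regular differentials of degree one, for instance
if `W` is the quotient by a cyclic group which acts on all factors with rational quotients. (If all
gonalities of `C 1, ..., C n` are greater than `m`, then `W` has regular differentials of degree one
which show that the fibres of the Albanese map have dimension at most one; in this case the result is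
known by the theorems of Kawamata and Lai.) A projective manifold `X` with nef canonical divisor is not
uniruled, and if `κ(X) ≥ dim X - 3` then `K_X` is semiample (Lai, Kawamata, and abundance in dimension
at most three).

Proof. Let `h` be the trace on `W'` of one of the canonical forms
`η ∧ d x 1 ∧ ... ∧ d x n` on `V`, where `η` is a regular differential on `C 0` and `x p` a function on
`C p`. The restrictions of these forms to the fibres of `V → V'`, over the generic point, generate the
space of regular differentials of the fibre. So `W` is uniruled if the traces of all of them vanish.
Otherwise let `G` be a product of functions `g p` on `C p` such that `g p d x p` is regular, and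
consider the canonical forms `Tr (G h)` on `W`. Suppose that their ratios generate a field `E` of
transcendence degree `e < r`. Let `w` and `w'` be independent generic points of a fibre of the map of
`W` given by these ratios, and `v_1, ..., v_m` and `v'_1, ..., v'_m` the points of `V'` over them.
There is a linear relation, with nonzero coefficients, between the values of the `G` in the `2 m`
points. If `v_1` and `v'_i` agree in the factors `p ∉ Λ` then `n - |Λ| ≤ e < r`. The number of the `i`
such that `v_i` and `v_1` agree in the factors `p ∉ Λ` is `m Λ`, and the number of the `v'_i` is `0`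
or `m Λ`. By the marriage theorem one can assign to all points except `v_1` a factor in which they
differ from `v_1`, such that the factor `p` is used at most `M p` times. By the theorem of
Riemann-Roch and the assumption on the gonality, `M p + 1` different points of `C p` impose
independent conditions on the regular differentials: otherwise there is a nonconstant function whose
poles are simple and among these points. This also holds for points with values in an extension of
the base field, by specialization. So there is a product `G` which vanishes in all points except
`v_1`, a contradiction. The nonvanishing of one of the forms is shown in the same way, with the `m`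
points `v_i`.
-/

set_option autoImplicit false
set_option linter.overlappingInstances false
set_option maxHeartbeats 4000000
set_option synthInstance.maxHeartbeats 400000

open FF Module Pool.Agent Pool.Agent.W602.GT
open Pool.Agent.W619.PQ (IsUniruled)

namespace Pool.Agent.Results.MP_97d78d_ag.ProductsOfCurves

/-- The geometric genus of the variety with the function field `L` is zero: the only canonical form
which is regular at all prime divisors is `0`. -/
def GenusZero (L : Type) [Field L] [Algebra ℂ L] (n : ℕ) : Prop :=
  ∀ ω : (Fin n → Derivation ℂ L L) → L, IsPluri 1 ω →
    (∀ P : Place ℂ L, Divisorial n P → RegAt P ω) → ∀ D, ω D = 0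

/-- The gonality of the curve with the function field `E` is at least `g`: all nonconstant functions
have degree at least `g`. -/
def GonalityGe (E : Type) [Field E] [Algebra ℂ E] (g : ℕ) : Prop :=
  ∀ b : E, Transcendental ℂ b → g ≤ finrank (IntermediateField.adjoin ℂ {b}) E

/-- The degree `m Λ` of `W' → W' Λ`: the degree of the field which is generated over `L` by the
function fields of the curves `C p` over its subfield which is generated by those with `p ∉ Λ`. -/
noncomputable def blockDegree {K : Type} [Field K] [Algebra ℂ K] {n : ℕ} (L : Type) [Field L]
    [Algebra L K] (C : Fin n → IntermediateField ℂ K) (Λ : Finset (Fin n)) : ℕ :=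
  (IntermediateField.adjoin L {z | ∃ p, p ∉ Λ ∧ z ∈ C p}).relfinrank
    (IntermediateField.adjoin L {z | ∃ p, z ∈ C p})

/-- **Images of products of curves.** Let `K` be the function field of the product `V` of `n + 1`
curves, where the curve `p` has the function field `C p`: the field `K` is generated by the `C p` and
has transcendence degree `n + 1`. Let the gonality of the curves with `p ≥ 1` be at least `M p + 2`.
Let `V ⇢ W` be a dominant rational map of finite degree, `L` the function field of `W`, and
`m Λ ≤ 1 + ∑_{p ∈ Λ} M p` for all nonempty sets `Λ` of indices `p ≥ 1`.
Then `p_g(W) = 0` if and only if `κ(W) = -∞`, if and only if `K_W` is not pseudo-effective, if and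
only if `W` is uniruled. If `r ≤ n` and `2 m Λ ≤ 1 + ∑_{p ∈ Λ} M p` for all `Λ` with more than `n - r`
elements, then `W` is uniruled or `κ(W) ≥ r`. -/
theorem result {n : ℕ} {K : Type} [Field K] [Algebra ℂ K]
    {C : Fin (n + 1) → IntermediateField ℂ K} (hfg : ∀ p, Algebra.EssFiniteType ℂ (C p))
    (hone : ∀ p, Algebra.trdeg ℂ (C p) = 1) (hgen : ⨆ p, C p = ⊤)
    (hK : Algebra.trdeg ℂ K = (n + 1 : ℕ)) {M : Fin n → ℕ}
    (hgon : ∀ p : Fin n, GonalityGe (C p.succ) (M p + 2))
    (L : Type) [Field L] [Algebra ℂ L] [Algebra L K] [IsScalarTower ℂ L K]
    [FiniteDimensional L K]
    (hdeg : ∀ Λ : Finset (Fin n), Λ.Nonempty →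
      blockDegree L (fun p : Fin n => C p.succ) Λ ≤ 1 + ∑ p ∈ Λ, M p) :
    [GenusZero L (n + 1), ¬ KodGe ℂ L (n + 1) (fun _ => False) 0,
      ¬ Psef ℂ L (n + 1) (fun _ => False), IsUniruled ℂ L (n + 1)].TFAE ∧
    ∀ r : ℕ, r ≤ n →
      (∀ Λ : Finset (Fin n), n - r < Λ.card →
        2 * blockDegree L (fun p : Fin n => C p.succ) Λ ≤ 1 + ∑ p ∈ Λ, M p) →
      IsUniruled ℂ L (n + 1) ∨ KodGe ℂ L (n + 1) (fun _ => False) r := by
  have hFF : ∀ p, IsFF ℂ (C p) := fun p => ⟨hfg p, hone p⟩
  obtain ⟨h1, h2⟩ := Pool.Agent.K4H25.PC.main_prod (C := C) hgen hK (M := M)
    (fun p b hb => hgon p b hb) L (fun Λ hΛ => (hdeg Λ hΛ).trans_eq (add_comm _ _))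
  exact ⟨h1, fun r hr hk => h2 r hr fun Λ hΛ => (hk Λ (by omega)).trans_eq (add_comm _ _)⟩

end Pool.Agent.Results.MP_97d78d_ag.ProductsOfCurves
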