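import Pool.Agent.K4H25.MG.Sep

/-!
# Abundance for images which are separated by a map to a product of projective spaces

Let `V` be a projective variety over `ℂ` of dimension `n`, and let `t` be a rational map of `V` to
`ℙ ^ (N 1) × ... × ℙ ^ (N q)`, with image `V'` of dimension `d`. The fibres of `V ⇢ V'` are arbitrary,
and `V'` is arbitrary. Let `H p` be the pullback of the hyperplane class of the factor `p`, and
suppose that `K_V - ∑ M p H p` has a nonzero section: there is a nonzero canonical form `ω` on `V` such
that `A(t) ω` is regular for all polynomials `A` whose degree in the variables of the block `p` is at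
most `M p`, for all `p`. For example `V` may be a resolution of a subvariety of
`ℙ ^ (N 1) × ... × ℙ ^ (N q)`; if it is a smooth complete intersection of `k` hypersurfaces of
multidegrees `e i`, then `M p = ∑ i, e i p - N p - 1`.

Let `V ⇢ W` be a dominant rational map of finite degree `m` such that `V` is birational to its image
in `W × V'`: the `m` points of a general fibre of `V ⇢ W` have different images in `V'`. This is no
restriction if `V ⇢ V'` is birational. The map is arbitrary otherwise. For a nonempty set `Λ` of
blocks, let `m Λ ≤ m` be the degree of `V` over its image in the product of `W` and the `ℙ ^ (N p)`,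
`p ∉ Λ`.

* If `m Λ ≤ 1 + ∑_{p ∈ Λ} M p` for all `Λ ≠ ∅` then `p_g(W) > 0`. Let moreover `r ≤ d` be such that
  `2 m Λ ≤ 1 + ∑_{p ∈ Λ} M p` for all `Λ ≠ ∅` for which the image of `V` in the product of the
  `ℙ ^ (N p)`, `p ∉ Λ`, has dimension less than `r`. Then `κ(W) ≥ r`.
* If `m ≤ M p` for all `p` then `κ(W) ≥ d - 1`. If moreover `κ(V') ≥ 0` then `κ(W) ≥ d`. In
  particular, if `V ⇢ V'` is birational and `m ≤ M p` for all `p` then `W` is of general type.

In the first part, if `m ≤ M p` for all `p` then the condition has to be checked only for the `Λ` with
one element. So `κ(W) ≥ d` for `m ≤ min M p` also if none of the projections of `V'` which forget one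
of the factors decreases the dimension.

A projective manifold `X` with nef canonical divisor and `κ(X) ≥ dim X - 3` has semiample canonical
divisor (Lai, Kawamata, and abundance in dimension at most three). So `K_X` is semiample for all
projective manifolds `X` with nef canonical divisor which are birational to such an image `W` with
`κ(W) ≥ n - 3`, for example if `n - d ≤ 3` and `r = d` is possible. This includes fibrations
`V ⇢ V'` whose fibres are arbitrary surfaces or threefolds. Earlier results of this kind known to me:
for subvarieties `V` of projective space, the images of degree at most `M + 1` have `p_g > 0`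
(Cayley-Bacharach, Lopez and Pirola, Bastianelli); the files `CurveFibrations` and
`FibrationsDegreeM` treat fibrations by curves.

Proof. As `L(t) = K`, where `L = ℂ(W)` and `K = ℂ(V)`, the canonical forms `T A = Tr (A(t) ω)` on `W`
are given by the `m` different points `v_1, ..., v_m` of `V'` over a generic point of `W`. Suppose
that the ratios of the `T A` generate a field `E` of transcendence degree `e < r`. Let `w` and `w'` be
independent generic points of a fibre of the map of `W` given by these ratios, and `v_i`, `v'_i` the
points of `V'` over them. There is a linear relation, with nonzero coefficients, between the values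
of the `A` in the `2 m` points. If `v_1` and `v'_i` agree in the blocks `p ∉ Λ` then their
coordinates there are algebraic over `E`, so the dimension of the image of `V'` in the product of
these factors is at most `e < r`. The number of the `i` such that `v_i` and `v_1` agree in the blocks
`p ∉ Λ` is `m Λ`, and the number of the `v'_i` is `0` or `m Λ`. By the marriage theorem one can
assign to all points except `v_1` a block in which they differ from `v_1`, such that the block `p` is
used at most `M p` times. So there is a product `A` of linear polynomials which vanishes in all points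
except `v_1`, a contradiction. The second part follows from the Cayley-Bacharach theorem for double
points: the points and their tangent vectors lie on lines, which are constant in the direction of
the fibres of the map given by the ratios, so that `V'` would be covered by lines
(`FibrationsDegreeM`).
-/

set_option autoImplicit false
set_option linter.overlappingInstances false
set_option maxHeartbeats 4000000
set_option synthInstance.maxHeartbeats 400000

open FF Module Pool.Agent Pool.Agent.W602.GT

namespace Pool.Agent.Results.MP_97d78d_ag.SeparatedImages

/-- `ω` is a canonical form on the variety of dimension `n` with the function field `K` which is a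
section of `K_V - ∑ M p H p`, where the variable `t j` is in the block `β j`: the forms `t ^ a ω`
such that the degree of `t ^ a` in the variables of the block `p` is at most `M p` are regular at all
prime divisors. -/
def Twisted {K : Type} [Field K] [Algebra ℂ K] {N q : ℕ} (n : ℕ) (β : Fin N → Fin q)
    (M : Fin q → ℕ) (t : Fin N → K) (ω : (Fin n → Derivation ℂ K K) → K) : Prop :=
  IsPluri 1 ω ∧ ∀ a : Fin N → ℕ, (∀ p, ∑ j with β j = p, a j ≤ M p) → ∀ P : Place ℂ K,
    Divisorial n P → RegAt P (fun D => (∏ j, t j ^ a j) * ω D)

/-- The degree `m Λ` of `V` over its image in the product of `W` and the factors outside of `Λ`: the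
degree of the field `L(t)` over its subfield which is generated over `L = ℂ(W)` by the variables
`t j` outside of the blocks in `Λ`. -/
noncomputable def blockDegree {K : Type} [Field K] {N q : ℕ} (L : Type) [Field L] [Algebra L K]
    (β : Fin N → Fin q) (t : Fin N → K) (Λ : Finset (Fin q)) : ℕ :=
  (IntermediateField.adjoin L (t '' {j | β j ∉ Λ})).relfinrank
    (IntermediateField.adjoin L (Set.range t))

/-- **Images which are separated by a map to a product of projective spaces.** Let `V` be a variety
of dimension `n` with function field `K`, and let the functions `t j` define a rational map of `V` to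
a product of projective spaces whose image `V'` has dimension `d`, where `t j` is a coordinate of the
factor `β j`. Let `ω ≠ 0` be a section of `K_V - ∑ M p H p`. Let `V ⇢ W` be a dominant rational map of
finite degree, `L` the function field of `W`, and suppose that `V` is birational to its image in
`W × V'`, `L(t) = K`.
If `m Λ ≤ 1 + ∑_{p ∈ Λ} M p` for all nonempty `Λ` then there is a nonzero regular canonical form on
`W`, and `κ(W) ≥ r` for all `r ≤ d` such that `2 m Λ ≤ 1 + ∑_{p ∈ Λ} M p` for all nonempty `Λ` for
which the image of `V` in the product of the factors outside of `Λ` has dimension less than `r`.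
If `[K : L] ≤ M p` for all `p` then `κ(W) ≥ d - 1`; and `κ(W) ≥ d` if `κ(V') ≥ 0`; and `W` is of
general type if `ℂ(t) = K`. -/
theorem result {n N q d : ℕ} {β : Fin N → Fin q} {M : Fin q → ℕ} {K : Type} [Field K]
    [Algebra ℂ K] [Algebra.EssFiniteType ℂ K] (hK : Algebra.trdeg ℂ K = n) {t : Fin N → K}
    (hd : Algebra.trdeg ℂ (IntermediateField.adjoin ℂ (Set.range t)) = (d : ℕ))
    {ω : (Fin n → Derivation ℂ K K) → K} (hω : Twisted n β M t ω) (h0 : ∃ D, ω D ≠ 0)
    (L : Type) [Field L] [Algebra ℂ L] [Algebra L K] [IsScalarTower ℂ L K]
    [FiniteDimensional L K] (hsep : IntermediateField.adjoin L (Set.range t) = ⊤) :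
    ((∀ Λ : Finset (Fin q), Λ.Nonempty → blockDegree L β t Λ ≤ 1 + ∑ p ∈ Λ, M p) →
      (∃ η : (Fin n → Derivation ℂ L L) → L, IsPluri 1 η ∧
        (∀ P : Place ℂ L, Divisorial n P → RegAt P η) ∧ ∃ D, η D ≠ 0) ∧
      ∀ r : ℕ, r ≤ d →
        (∀ Λ : Finset (Fin q), Λ.Nonempty →
          Algebra.trdeg ℂ (IntermediateField.adjoin ℂ (t '' {j | β j ∉ Λ})) < (r : ℕ) →
          2 * blockDegree L β t Λ ≤ 1 + ∑ p ∈ Λ, M p) →
        KodGe ℂ L n (fun _ => False) r) ∧
    ((∀ p, finrank L K ≤ M p) →
      KodGe ℂ L n (fun _ => False) (d - 1) ∧
      (KodGe ℂ (IntermediateField.adjoin ℂ (Set.range t)) d (fun _ => False) 0 →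
        KodGe ℂ L n (fun _ => False) d) ∧
      (IntermediateField.adjoin ℂ (Set.range t) = ⊤ → KodGe ℂ L n (fun _ => False) n)) :=
  Pool.Agent.K4H25.MG.main_sep hK hd hω h0 L hsep

end Pool.Agent.Results.MP_97d78d_ag.SeparatedImages
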